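import Pool.Agent.Helper69.VX.St

/-!
# Project VX, module PLL: the `L¹-L²` inequality for a set of bits
-/

set_option autoImplicit false

namespace Pool.Agent.Helper36.VX

open Finset Filter Pool.Agent.Helper82.CN Pool.Agent.Helper11.PV Pool.Agent.Helper69.VX

private theorem pll_update_out {ι : Type} [DecidableEq ι] {K : Set ι} {i : ι} (h : i ∈ K)
    (ω η : ι → Bool) (b : Bool) : mix K ω (Function.update η i b) = mix K ω η := by
  funext j
  by_cases hK : j ∈ K
  · rw [mix_pos hK, mix_pos hK]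
  · have hj : j ≠ i := fun e => hK (e ▸ h)
    rw [mix_neg hK, mix_neg hK, Function.update_of_ne hj]

private theorem pll_update_in {ι : Type} [DecidableEq ι] {K : Set ι} {i : ι} (h : i ∉ K)
    (ω η : ι → Bool) (b : Bool) :
    mix K ω (Function.update η i b) = Function.update (mix K ω η) i b := by
  funext j
  by_cases hj : j = i
  · subst hj
    rw [mix_neg h, Function.update_self, Function.update_self]
  · rw [Function.update_of_ne hj]
    by_cases hK : j ∈ K
    · rw [mix_pos hK, mix_pos hK]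
    · rw [mix_neg hK, mix_neg hK, Function.update_of_ne hj]

private theorem pll_var (p : ℝ) {ι : Type} [Fintype ι] [DecidableEq ι] (g : (ι → Bool) → ℝ) :
    VV p g = EE p (fun ω => g ω ^ 2) - EE p g ^ 2 := by
  unfold VV
  have h : ∀ ω, (g ω - EE p g) ^ 2 = g ω ^ 2 - (2 * EE p g * g ω - EE p g ^ 2) := fun ω => by ring
  simp only [h]
  rw [EE_sub, EE_sub, EE_mul_left, EE_const]
  ring

theorem hPLL (hLLG : StLLG) : StPLL := by
  intro p ι _ _ F K s h0 h1 hs
  have h0' : 0 ≤ p := h0.le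
  have h1' : p ≤ 1 := h1.le
  have key : ∀ ω : ι → Bool,
      (AV p ((K : Set ι)ᶜ) (fun ζ => F ζ ^ 2) ω - AV p ((K : Set ι)ᶜ) F ω ^ 2) * (1 + Real.log s) ≤
      s * ∑ i ∈ K, AV p ((K : Set ι)ᶜ) (fun ζ => |DD F i ζ|) ω ^ 2 +
      2 * ∑ i ∈ K, AV p ((K : Set ι)ᶜ) (fun ζ => DD F i ζ ^ 2) ω := by
    intro ω
    have h := hLLG p ι (fun η => F (mix ((K : Set ι)ᶜ) ω η)) s h0 h1 hs
    have hin : ∀ i ∈ K, DD (fun η => F (mix ((K : Set ι)ᶜ) ω η)) i =
        fun η => DD F i (mix ((K : Set ι)ᶜ) ω η) := by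
      intro i hi
      have hi' : i ∉ ((K : Set ι)ᶜ) := fun h2 => h2 (Finset.mem_coe.2 hi)
      funext η
      unfold DD
      simp only [pll_update_in hi']
    have hout : ∀ i, i ∉ K → DD (fun η => F (mix ((K : Set ι)ᶜ) ω η)) i = fun _ => 0 := by
      intro i hi
      have hi' : i ∈ ((K : Set ι)ᶜ) := fun h2 => hi (Finset.mem_coe.1 h2)
      funext η
      unfold DD
      simp only [pll_update_out hi', sub_self]
    have e1 : ∑ i, (EE p (fun η => |DD (fun η => F (mix ((K : Set ι)ᶜ) ω η)) i η|)) ^ 2 =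
        ∑ i ∈ K, AV p ((K : Set ι)ᶜ) (fun ζ => |DD F i ζ|) ω ^ 2 := by
      symm
      rw [← Finset.sum_subset (Finset.subset_univ K)
        (f := fun i => (EE p (fun η => |DD (fun η => F (mix ((K : Set ι)ᶜ) ω η)) i η|)) ^ 2)]
      · refine Finset.sum_congr rfl fun i hi => ?_
        rw [hin i hi]
        rfl
      · intro i _ hi
        rw [hout i hi]
        simp only [abs_zero, EE_const]
        norm_num
    have e2 : ∑ i, EE p (fun η => DD (fun η => F (mix ((K : Set ι)ᶜ) ω η)) i η ^ 2) =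
        ∑ i ∈ K, AV p ((K : Set ι)ᶜ) (fun ζ => DD F i ζ ^ 2) ω := by
      symm
      rw [← Finset.sum_subset (Finset.subset_univ K)
        (f := fun i => EE p (fun η => DD (fun η => F (mix ((K : Set ι)ᶜ) ω η)) i η ^ 2))]
      · refine Finset.sum_congr rfl fun i hi => ?_
        rw [hin i hi]
        rfl
      · intro i _ hi
        rw [hout i hi]
        have h3 : (fun _ : ι → Bool => (0 : ℝ) ^ 2) = fun _ => 0 := by
          funext _
          norm_num
        rw [h3, EE_const]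
    rw [e1, e2, pll_var] at h
    exact h
  have hE := EE_mono h0' h1' key
  rw [EE_mul_right, EE_sub, EE_add, EE_mul_left, EE_mul_left, EE_sum, EE_sum] at hE
  have e3 : EE p (fun ω => AV p ((K : Set ι)ᶜ) (fun ζ => F ζ ^ 2) ω) = EE p (fun ω => F ω ^ 2) :=
    EE_AV p _ _
  have e4 : ∀ i, EE p (fun ω => AV p ((K : Set ι)ᶜ) (fun ζ => DD F i ζ ^ 2) ω) =
      EE p (fun ω => DD F i ω ^ 2) := fun i => EE_AV p _ _
  rw [e3] at hE
  simp only [e4] at hE
  exact hE

end Pool.Agent.Helper36.VX
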